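import Pool.Agent.Helper27.BT.Cutp

/-!
# BT, piece W, C3: a window without its last query contains no rare sampled symbol
-/

set_option autoImplicit false

namespace Pool.Agent.Helper91.BT

open Finset Pool.Agent.Helper74.NW Pool.Agent.Helper96.BT Pool.Agent.Helper99.BT
open Pool.Agent.Helper99.NK (times)
open Pool.Agent.Helper27.BT

section lists

variable {C : Type} {S q J w : ℕ} {H : Fin q → C}

theorem times_singleton_self (x : C) : times [x] x = 1 := by
  classical
  unfold times
  simp

/-- C3: every window, without its last query, contains no sampled symbol which is queried at most `w` times. -/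
theorem seg_free (l : List C) (j t : ℕ) (ht : t + 1 < (seg (cutp H w l) l j).length) (i : Fin q)
    (hi : (seg (cutp H w l) l j)[t]? = some (H i)) : w < times l (H i) := by
  by_contra hw
  have h1 := cutp_le (H := H) (w := w) l (j + 1)
  have hlen : (seg (cutp H w l) l j).length = cutp H w l (j + 1) - cutp H w l j := by
    unfold seg
    rw [List.length_take, List.length_drop]
    omega
  rw [hlen] at ht
  set T := cutp H w l j + t with hT
  -- the symbol number `T` of the list
  have hiT : l[T]? = some (H i) := by
    unfold seg at hi
    rw [List.getElem?_take, if_pos (by omega), List.getElem?_drop] at hi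
    exact hi
  have hTl : T + 1 < l.length := by omega
  have h2 : l.take (T + 1) = l.take T ++ [H i] := by
    rw [List.take_add_one, hiT]
    rfl
  -- the sum of the counters at `T` and `T + 1`
  have h3 : ¬ kap (adv H w 0 (l.take T)) < j := by
    intro h
    have := (lt_cutp (H := H) (w := w) l j T (by omega)).1 h
    omega
  have h4 : kap (adv H w 0 (l.take (T + 1))) < j + 1 :=
    (lt_cutp (H := H) (w := w) l (j + 1) (T + 1) hTl).2 (by omega)
  have h5 : kap (adv H w 0 (l.take T)) < kap (adv H w 0 (l.take (T + 1))) := by
    unfold kap
    refine sum_lt_sum (fun k _ => ?_) ⟨i, mem_univ _, ?_⟩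
    · unfold adv
      have := times_take_mono l (Nat.le_succ T) (H k)
      rw [Nat.succ_eq_add_one] at this
      omega
    · have h6 : times (l.take (T + 1)) (H i) = times (l.take T) (H i) + 1 := by
        rw [h2, times_append, times_singleton_self]
      have h7 : times (l.take (T + 1)) (H i) ≤ times l (H i) := by
        have := times_take_mono l (show T + 1 ≤ l.length by omega) (H i)
        rwa [List.take_length] at this
      unfold adv
      simp only [Pi.zero_apply]
      omega
  omega

end lists

end Pool.Agent.Helper91.BT
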